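import Pool.Agent.Helper67_Pak.Common

/-!
# E5: the levers
-/

namespace Pool.Agent.Helper2_Pak.H67

open Pool.Agent.Helper2_Pack (Motion)
open Pool.Agent.Helper67_Pack (inv_re inv_im unit_sq)

/-- the sign of a lever is `±1` -/
theorem sgB_cases (σ : Bool) : (sgB σ = 1 ∧ eL σ = 18 / 32 ∧ σ = true) ∨
    (sgB σ = -1 ∧ eL σ = 14 / 32 ∧ σ = false) := by
  cases σ
  · right
    refine ⟨?_, ?_, rfl⟩ <;> simp [sgB, eL]
  · left
    refine ⟨?_, ?_, rfl⟩ <;> simp [sgB, eL]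

/-- the height of the tip of the spike -/
theorem tipH_eq (t : ℝ) (σ : Bool) : tipH t σ = t ^ 3 - sgB σ * t ^ 3 / 4 := by
  cases σ <;> simp [tipH, sgB] <;> ring

theorem eL_eq (σ : Bool) : eL σ = 1 / 2 + sgB σ / 16 := by
  cases σ <;> simp [eL, sgB] <;> norm_num

/-- near the slit: `e` is the distance to the axis, `Z` the height above the centre -/
theorem slit_region (hS1 : S1Stmt) {t : ℝ} (h0 : 0 < t) (h1 : t ≤ 1 / 2 ^ 60) (σ : Bool)
    (g : Motion) {z : ℂ} {e Z : ℝ}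
    (hx : g.u.re * (z.re - g.v.re) + g.u.im * (z.im - g.v.im) = -Z)
    (hy : g.u.re * (z.im - g.v.im) - g.u.im * (z.re - g.v.re) = -sgB σ / 16 + e)
    (he : |e| ≤ 1 / 64) (hZ1 : -1 / 2 < Z) (hZ2 : Z < 1 / 2)
    (hZ3 : Z < -1 / 2 + (t ^ 3 / 2 - sgB σ * t ^ 3 / 4) +
      (1 - (t ^ 3 / 2 - sgB σ * t ^ 3 / 4)) * |e| / (2 * t ^ 7)) :
    z ∈ interior (tile t g) := by
  have e0 := abs_le.1 he
  obtain ⟨p1, q1⟩ := tpow h0 h1 1
  obtain ⟨p2, q2⟩ := tpow h0 h1 2
  obtain ⟨p3, q3⟩ := tpow h0 h1 3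
  obtain ⟨p4, q4⟩ := tpow h0 h1 4
  obtain ⟨p5, q5⟩ := tpow h0 h1 5
  obtain ⟨p6, q6⟩ := tpow h0 h1 6
  obtain ⟨p7, q7⟩ := tpow h0 h1 7
  have hh1 : 1 / 2 ≤ hh t := by unfold hh; linarith only [q2, q3, q4, q5, q6, p7]
  norm_num at h1 q1 q2 q3 q4 q5 q6 q7
  have hZabs : |-Z| ≤ 1 / 2 := by
    rw [abs_neg, abs_le]
    constructor <;> linarith only [hZ1, hZ2]
  have hyr : |(-sgB σ / 16 + e)| ≤ 1 / 8 := by
    rcases sgB_cases σ with ⟨h, -, -⟩ | ⟨h, -, -⟩ <;> rw [h, abs_le] <;>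
      constructor <;> linarith only [e0]
  have hyr' := abs_le.1 hyr
  refine mem_int hS1 h0 (by norm_num; exact h1) g hx hy ?_ ?_ ?_ ?_
  · have := lo_lt h0 (by norm_num; exact h1) hZabs
    linarith only [hyr', this]
  · have := lt_hi h0 (by norm_num; exact h1) hZabs
    linarith only [hyr', this]
  · unfold lf
    rw [pit_zero (e := -sgB σ / 16 + e + 1 / 4) (by linarith only [p7, q3, q4, q5, q6]) (by linarith only [p7, q3, q4, q5, q6])
      (by rw [le_abs]; left; linarith only [hyr']),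
      pit_zero (e := -sgB σ / 16 + e - 1 / 4) (by linarith only [p7, q3, q4, q5, q6]) (by linarith only [p7, q3, q4, q5, q6])
      (by rw [le_abs]; right; linarith only [hyr']),
      chamf_zero (by linarith only [hh1, h1, hyr])]
    rcases sgB_cases σ with ⟨h, -, -⟩ | ⟨h, -, -⟩
    · rw [h] at hZ3 ⊢
      rw [slit_zero (e := -1 / 16 + e - 1 / 16) h0 (by linarith only [h1, q1, q2])
        (by rw [le_abs]; right; linarith only [e0, h1, q1, q2, q3, q4, q5, q6])]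
      have e1 : -1 / 16 + e + 1 / 16 = e := by ring
      rw [e1]
      unfold slit
      have : max 0 ((1 - t ^ 3 / 4) * (1 - |e| / (2 * t ^ 7))) < 1 / 2 - Z := by
        apply max_lt (by linarith only [hZ2])
        have e2 : (1 - t ^ 3 / 4) * (1 - |e| / (2 * t ^ 7)) =
          (1 - t ^ 3 / 4) - (1 - t ^ 3 / 4) * |e| / (2 * t ^ 7) := by ring
        rw [e2]
        have e3 : (1 - (t ^ 3 / 2 - 1 * t ^ 3 / 4)) = 1 - t ^ 3 / 4 := by ring
        rw [e3] at hZ3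
        linarith only [hZ3]
      linarith only [this]
    · rw [h] at hZ3 ⊢
      rw [slit_zero (e := -(-1) / 16 + e + 1 / 16) h0 (by linarith only [h1, q1, q2])
        (by rw [le_abs]; left; linarith only [e0, h1, q1, q2, q3, q4, q5, q6])]
      have e1 : -(-1) / 16 + e - 1 / 16 = e := by ring
      rw [e1]
      unfold slit
      have : max 0 ((1 - 3 * t ^ 3 / 4) * (1 - |e| / (2 * t ^ 7))) < 1 / 2 - Z := by
        apply max_lt (by linarith only [hZ2])
        have e2 : (1 - 3 * t ^ 3 / 4) * (1 - |e| / (2 * t ^ 7)) =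
          (1 - 3 * t ^ 3 / 4) - (1 - 3 * t ^ 3 / 4) * |e| / (2 * t ^ 7) := by ring
        rw [e2]
        have e3 : (1 - (t ^ 3 / 2 - (-1) * t ^ 3 / 4)) = 1 - 3 * t ^ 3 / 4 := by ring
        rw [e3] at hZ3
        linarith only [hZ3]
      linarith only [this]
  · unfold rt
    rw [pit_zero (e := -sgB σ / 16 + e + 5 / 16) (by linarith only [p7, q3, q4, q5, q6]) (by linarith only [p7, q3, q4, q5, q6])
      (by rw [le_abs]; left; linarith only [hyr']),
      pit_zero (e := -sgB σ / 16 + e + 3 / 16) (by linarith only [p7, q3, q4, q5, q6]) (by linarith only [p7, q3, q4, q5, q6])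
      (by rw [le_abs]; left; linarith only [hyr']),
      pit_zero (e := -sgB σ / 16 + e - 3 / 16) (by linarith only [p7, q3, q4, q5, q6]) (by linarith only [p7, q3, q4, q5, q6])
      (by rw [le_abs]; right; linarith only [hyr']),
      pit_zero (e := -sgB σ / 16 + e - 5 / 16) (by linarith only [p7, q3, q4, q5, q6]) (by linarith only [p7, q3, q4, q5, q6])
      (by rw [le_abs]; right; linarith only [hyr']),
      chamf_zero (by linarith only [hh1, h1, hyr])]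
    linarith only [hZ1]

/-- near the pits: `x = ± 1 / 4` is the position of the port relative to the spike -/
theorem pit_region (hS1 : S1Stmt) {t : ℝ} (h0 : 0 < t) (h1 : t ≤ 1 / 2 ^ 60) (σ : Bool)
    (g : Motion) {z : ℂ} {x e Z : ℝ} (hxx : x = 1 / 4 ∨ x = -1 / 4)
    (hx : g.u.re * (z.re - g.v.re) + g.u.im * (z.im - g.v.im) = -Z)
    (hy : g.u.re * (z.im - g.v.im) - g.u.im * (z.re - g.v.re) = -sgB σ / 16 + x + e)
    (he : |e| ≤ 1 / 64) (hZ2 : Z < 0)
    (hZ3 : -1 / 2 + t ^ 3 / 2 + 4 * sgB σ * t ^ 3 * x * e < Z) :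
    z ∈ interior (tile t g) := by
  have e0 := abs_le.1 he
  obtain ⟨p1, q1⟩ := tpow h0 h1 1
  obtain ⟨p2, q2⟩ := tpow h0 h1 2
  obtain ⟨p3, q3⟩ := tpow h0 h1 3
  obtain ⟨p4, q4⟩ := tpow h0 h1 4
  obtain ⟨p5, q5⟩ := tpow h0 h1 5
  obtain ⟨p6, q6⟩ := tpow h0 h1 6
  obtain ⟨p7, q7⟩ := tpow h0 h1 7
  have hh1 : 1 / 2 ≤ hh t := by unfold hh; linarith only [q2, q3, q4, q5, q6, p7]
  norm_num at h1 q1 q2 q3 q4 q5 q6 q7
  have hte : |t ^ 3 * e| ≤ t ^ 3 / 64 := by
    rw [abs_mul, abs_of_pos p3]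
    calc t ^ 3 * |e| ≤ t ^ 3 * (1 / 64) := mul_le_mul_of_nonneg_left he p3.le
      _ = t ^ 3 / 64 := by ring
  have hte' := abs_le.1 hte
  have hb : -1 / 2 < Z := by
    rcases sgB_cases σ with ⟨h, -, -⟩ | ⟨h, -, -⟩ <;> rcases hxx with h2 | h2 <;>
      rw [h, h2] at hZ3 <;> linarith only [hZ3, hte']
  have hZabs : |-Z| ≤ 1 / 2 := by
    rw [abs_neg, abs_le]
    constructor <;> linarith only [hb, hZ2]
  have hyr : |(-sgB σ / 16 + x + e)| ≤ 11 / 32 := by
    rcases sgB_cases σ with ⟨h, -, -⟩ | ⟨h, -, -⟩ <;> rcases hxx with h2 | h2 <;>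
      rw [h, h2, abs_le] <;> constructor <;> linarith only [e0]
  have hyr' := abs_le.1 hyr
  have h1' : t ≤ 1 / 2 ^ 60 := by norm_num; exact h1
  refine mem_int hS1 h0 h1' g hx hy ?_ ?_ ?_ ?_
  · have := lo_lt h0 h1' hZabs
    linarith only [hyr', this]
  · have := lt_hi h0 h1' hZabs
    linarith only [hyr', this]
  · unfold lf
    have : pit (t ^ 3 - t ^ 4) (-t ^ 4) (-sgB σ / 16 + x + e + 1 / 4) = 0 := by
      apply pit_zero (by linarith only [p7, q3, q4, q5, q6]) (by linarith only [p7, q3, q4, q5, q6])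
      rcases sgB_cases σ with ⟨h, -, -⟩ | ⟨h, -, -⟩ <;> rcases hxx with h2 | h2 <;>
        rw [h, h2, le_abs]
      · left; linarith only [e0]
      · right; linarith only [e0]
      · left; linarith only [e0]
      · left; linarith only [e0]
    rw [this]
    have : pit (t ^ 3 - t ^ 4) (-t ^ 4) (-sgB σ / 16 + x + e - 1 / 4) = 0 := by
      apply pit_zero (by linarith only [p7, q3, q4, q5, q6]) (by linarith only [p7, q3, q4, q5, q6])
      rcases sgB_cases σ with ⟨h, -, -⟩ | ⟨h, -, -⟩ <;> rcases hxx with h2 | h2 <;>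
        rw [h, h2, le_abs]
      · right; linarith only [e0]
      · right; linarith only [e0]
      · left; linarith only [e0]
      · right; linarith only [e0]
    rw [this]
    have : slit t (1 - t ^ 3 / 4) (-sgB σ / 16 + x + e + 1 / 16) = 0 := by
      apply slit_zero h0 (by linarith only [h1, q1, q2])
      rcases sgB_cases σ with ⟨h, -, -⟩ | ⟨h, -, -⟩ <;> rcases hxx with h2 | h2 <;>
        rw [h, h2, le_abs]
      · left; linarith only [e0, h1, q1, q2, q3, q4, q5, q6]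
      · right; linarith only [e0, h1, q1, q2, q3, q4, q5, q6]
      · left; linarith only [e0, h1, q1, q2, q3, q4, q5, q6]
      · right; linarith only [e0, h1, q1, q2, q3, q4, q5, q6]
    rw [this]
    have : slit t (1 - 3 * t ^ 3 / 4) (-sgB σ / 16 + x + e - 1 / 16) = 0 := by
      apply slit_zero h0 (by linarith only [h1, q1, q2])
      rcases sgB_cases σ with ⟨h, -, -⟩ | ⟨h, -, -⟩ <;> rcases hxx with h2 | h2 <;>
        rw [h, h2, le_abs]
      · left; linarith only [e0, h1, q1, q2, q3, q4, q5, q6]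
      · right; linarith only [e0, h1, q1, q2, q3, q4, q5, q6]
      · left; linarith only [e0, h1, q1, q2, q3, q4, q5, q6]
      · right; linarith only [e0, h1, q1, q2, q3, q4, q5, q6]
    rw [this, chamf_zero (by linarith only [hh1, h1, hyr])]
    linarith only [hZ2]
  · have hch : chamf t (hh t) (-sgB σ / 16 + x + e) = 0 := chamf_zero (by linarith only [hh1, h1, hyr])
    rcases sgB_cases σ with ⟨h, -, -⟩ | ⟨h, -, -⟩ <;> rcases hxx with h2 | h2 <;>
      rw [h, h2] at hch hZ3 ⊢ <;> unfold rt <;> rw [hch]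
    · rw [pit_zero (e := -1 / 16 + 1 / 4 + e + 5 / 16) (by linarith only [p7, q3, q4, q5, q6]) (by linarith only [p7, q3, q4, q5, q6])
        (by rw [le_abs]; left; linarith only [e0]),
        pit_zero (e := -1 / 16 + 1 / 4 + e + 3 / 16) (by linarith only [p7, q3, q4, q5, q6]) (by linarith only [p7, q3, q4, q5, q6])
        (by rw [le_abs]; left; linarith only [e0]),
        pit_zero (e := -1 / 16 + 1 / 4 + e - 5 / 16) (by linarith only [p7, q3, q4, q5, q6]) (by linarith only [p7, q3, q4, q5, q6])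
        (by rw [le_abs]; right; linarith only [e0])]
      have := pit_le (a := t ^ 3 / 2) (b := t ^ 3) (e := -1 / 16 + 1 / 4 + e - 3 / 16)
        (by linarith only [hte'])
      linarith only [hZ3, this]
    · rw [pit_zero (e := -1 / 16 + -1 / 4 + e + 3 / 16) (by linarith only [p7, q3, q4, q5, q6]) (by linarith only [p7, q3, q4, q5, q6])
        (by rw [le_abs]; right; linarith only [e0]),
        pit_zero (e := -1 / 16 + -1 / 4 + e - 3 / 16) (by linarith only [p7, q3, q4, q5, q6]) (by linarith only [p7, q3, q4, q5, q6])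
        (by rw [le_abs]; right; linarith only [e0]),
        pit_zero (e := -1 / 16 + -1 / 4 + e - 5 / 16) (by linarith only [p7, q3, q4, q5, q6]) (by linarith only [p7, q3, q4, q5, q6])
        (by rw [le_abs]; right; linarith only [e0])]
      have := pit_le (a := t ^ 3 / 2) (b := -t ^ 3) (e := -1 / 16 + -1 / 4 + e + 5 / 16)
        (by linarith only [hte'])
      linarith only [hZ3, this]
    · rw [pit_zero (e := -(-1) / 16 + 1 / 4 + e + 5 / 16) (by linarith only [p7, q3, q4, q5, q6]) (by linarith only [p7, q3, q4, q5, q6])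
        (by rw [le_abs]; left; linarith only [e0]),
        pit_zero (e := -(-1) / 16 + 1 / 4 + e + 3 / 16) (by linarith only [p7, q3, q4, q5, q6]) (by linarith only [p7, q3, q4, q5, q6])
        (by rw [le_abs]; left; linarith only [e0]),
        pit_zero (e := -(-1) / 16 + 1 / 4 + e - 3 / 16) (by linarith only [p7, q3, q4, q5, q6]) (by linarith only [p7, q3, q4, q5, q6])
        (by rw [le_abs]; left; linarith only [e0])]
      have := pit_le (a := t ^ 3 / 2) (b := -t ^ 3) (e := -(-1) / 16 + 1 / 4 + e - 5 / 16)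
        (by linarith only [hte'])
      linarith only [hZ3, this]
    · rw [pit_zero (e := -(-1) / 16 + -1 / 4 + e + 5 / 16) (by linarith only [p7, q3, q4, q5, q6]) (by linarith only [p7, q3, q4, q5, q6])
        (by rw [le_abs]; left; linarith only [e0]),
        pit_zero (e := -(-1) / 16 + -1 / 4 + e - 3 / 16) (by linarith only [p7, q3, q4, q5, q6]) (by linarith only [p7, q3, q4, q5, q6])
        (by rw [le_abs]; right; linarith only [e0]),
        pit_zero (e := -(-1) / 16 + -1 / 4 + e - 5 / 16) (by linarith only [p7, q3, q4, q5, q6]) (by linarith only [p7, q3, q4, q5, q6])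
        (by rw [le_abs]; right; linarith only [e0])]
      have := pit_le (a := t ^ 3 / 2) (b := t ^ 3) (e := -(-1) / 16 + -1 / 4 + e + 3 / 16)
        (by linarith only [hte'])
      linarith only [hZ3, this]

/-- the real form of `NearK` in the orientation `3` -/
theorem near3 {e : ℝ} {a : ℂ} {g : Motion} (h : NearK e a 3 g) :
    |g.v.re - a.re - 1 / 2| ≤ e ∧ |g.v.im - a.im - 1 / 2| ≤ e ∧ |g.u.re| ≤ e ∧
      |g.u.im + 1| ≤ e := by
  obtain ⟨-, h1, h2, h3⟩ := h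
  have e3 : (Complex.I ^ 3 : ℂ) = -Complex.I := by
    rw [pow_succ, Complex.I_sq]
    ring
  rw [e3] at h3
  have h4 := (Complex.abs_re_le_norm _).trans h3
  have h5 := (Complex.abs_im_le_norm _).trans h3
  simp at h1 h2 h4 h5
  refine ⟨?_, ?_, h4, h5⟩
  · convert h1 using 2
    norm_num
  · convert h2 using 2
    norm_num

/-- the inequality of a port -/
theorem port (hS1 : S1Stmt) {t : ℝ} (h0 : 0 < t) (h1 : t ≤ 1 / 2 ^ 60) (σ : Bool)
    (g : Motion) {X Y c s e Z x V : ℝ} (hc : c = -g.u.im) (hs : s = g.u.re)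
    (he : e = c * (X - g.v.re) + s * (Y - g.v.im) + sgB σ / 16)
    (hZ : Z = c * (Y - g.v.im) - s * (X - g.v.re)) (n3 : |s| ≤ 1 / 1024) (hcs : |1 - c| ≤ 1 / 1024)
    (heb : |e| ≤ 1 / 256) (hZb : |Z + 1 / 2| ≤ 1 / 256)
    (hE : t ^ 3 * |e| ≤ Z + 1 / 2 - (t ^ 3 / 2 - sgB σ * t ^ 3 / 4))
    (hx : x = 1 / 4 ∨ x = -1 / 4) (hV : |V| ≤ t ^ 3 / 64)
    (hP : (⟨X + x, Y + (sgB σ * t ^ 3 / 4 + V)⟩ : ℂ) ∉ interior (tile t g)) :
    c * V ≤ s * x * (1 + t ^ 6 + 4 * sgB σ * t ^ 3 * V) := by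
  obtain ⟨p1, q1⟩ := tpow h0 h1 1
  obtain ⟨p2, q2⟩ := tpow h0 h1 2
  obtain ⟨p3, q3⟩ := tpow h0 h1 3
  have h1' := h1
  norm_num at h1 q1 q2 q3
  obtain ⟨τ, hτ⟩ : ∃ τ, τ = sgB σ := ⟨_, rfl⟩
  have hττ : τ = 1 ∨ τ = -1 := by
    rcases sgB_cases σ with ⟨h, -, -⟩ | ⟨h, -, -⟩
    · left; rw [hτ, h]
    · right; rw [hτ, h]
  have hτ2 : τ * τ = 1 := by rcases hττ with h | h <;> rw [h] <;> norm_num
  have hτa : |τ| ≤ 1 := by rcases hττ with h | h <;> rw [h] <;> simp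
  rw [← hτ] at hE hP ⊢
  have hcs' := abs_le.1 hcs
  have heb' := abs_le.1 heb
  have hZb' := abs_le.1 hZb
  have hV' := abs_le.1 hV
  obtain ⟨y, hy⟩ : ∃ y, y = τ * t ^ 3 / 4 + V := ⟨_, rfl⟩
  rw [← hy] at hP
  have hy1 : |y| ≤ 1 / 32 := by
    rw [abs_le]
    rcases hττ with h | h <;> rw [hy, h] <;> constructor <;> linarith only [hV', h1', q1, q2]
  have hxa : |x| ≤ 1 / 4 := by
    rcases hx with h | h <;> rw [h] <;> norm_num [abs_le]
  have hxx : x * x = 1 / 16 := by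
    rcases hx with h | h <;> rw [h] <;> norm_num
  have hca : |c| ≤ 2 := by
    rw [abs_le]
    constructor <;> linarith only [hcs']
  have b1 : |(1 - c) * x| ≤ 1 / 1024 * (1 / 4) := by
    rw [abs_mul]
    exact mul_le_mul hcs hxa (abs_nonneg _) (by norm_num)
  have b2 : |s * y| ≤ 1 / 1024 * (1 / 32) := by
    rw [abs_mul]
    exact mul_le_mul n3 hy1 (abs_nonneg _) (by norm_num)
  have b3 : |s * x| ≤ 1 / 1024 * (1 / 4) := by
    rw [abs_mul]
    exact mul_le_mul n3 hxa (abs_nonneg _) (by norm_num)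
  have b4 : |c * y| ≤ 2 * (1 / 32) := by
    rw [abs_mul]
    exact mul_le_mul hca hy1 (abs_nonneg _) (by norm_num)
  have b1' := abs_le.1 b1
  have b2' := abs_le.1 b2
  have b3' := abs_le.1 b3
  have b4' := abs_le.1 b4
  have e1 : |e - (1 - c) * x + s * y| ≤ 1 / 64 := by
    rw [abs_le]
    constructor <;> linarith only [heb', b1', b2']
  have hc' : g.u.im = -c := by linarith only [hc]
  have main : Z + c * y - s * x ≤ -1 / 2 + t ^ 3 / 2 +
      4 * τ * t ^ 3 * x * (e - (1 - c) * x + s * y) := by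
    by_contra hcon
    rw [not_le] at hcon
    apply hP
    refine pit_region hS1 h0 h1' σ g (x := x) (e := e - (1 - c) * x + s * y)
      (Z := Z + c * y - s * x) hx ?_ ?_ e1 ?_ ?_
    · rw [← hs, hc', hZ]
      ring
    · rw [← hs, hc', he]
      ring
    · linarith only [hZb', b3', b4']
    · rw [← hτ]
      exact hcon
  have hd : τ * x * e ≤ 1 / 4 * |e| := by
    have : |τ * x * e| ≤ 1 / 4 * |e| := by
      rw [abs_mul, abs_mul]
      apply mul_le_mul_of_nonneg_right _ (abs_nonneg _)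
      calc |τ| * |x| ≤ 1 * (1 / 4) := mul_le_mul hτa hxa (abs_nonneg _) (by norm_num)
        _ = 1 / 4 := by norm_num
    exact (le_abs_self _).trans this
  have hd2 : 4 * t ^ 3 * (τ * x * e) ≤ t ^ 3 * |e| := by
    have := mul_le_mul_of_nonneg_left hd (by linarith only [p3] : 0 ≤ 4 * t ^ 3)
    linarith only [this]
  rw [hy] at main
  have e2 : 4 * τ * t ^ 3 * x * (e - (1 - c) * x + s * (τ * t ^ 3 / 4 + V)) =
      4 * t ^ 3 * (τ * x * e) - 4 * τ * t ^ 3 * (1 - c) * (x * x) +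
        s * x * (t ^ 6 * (τ * τ) + 4 * τ * t ^ 3 * V) := by ring
  rw [e2, hxx, hτ2] at main
  linarith only [hE, main, hd2]

/-- elimination of the rotation -/
theorem elim {t c s τ Y₁ Y₂ : ℝ} (h0 : 0 < t) (h1 : t ≤ 1 / 2 ^ 60) (hc0 : 0 < c) (hτa : |τ| ≤ 1)
    (hY1 : |Y₁| ≤ t ^ 3 / 64) (hY2 : |Y₂| ≤ t ^ 3 / 64)
    (r1 : c * Y₁ ≤ s * (-1 / 4) * (1 + t ^ 6 + 4 * τ * t ^ 3 * Y₁))
    (r2 : c * Y₂ ≤ s * (1 / 4) * (1 + t ^ 6 + 4 * τ * t ^ 3 * Y₂)) :
    1 / 4 * (1 + t ^ 6) * (Y₁ + Y₂) + 2 * τ * t ^ 3 * (Y₁ * Y₂) ≤ 0 := by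
  obtain ⟨p1, q1⟩ := tpow h0 h1 1
  obtain ⟨p2, q2⟩ := tpow h0 h1 2
  obtain ⟨p3, q3⟩ := tpow h0 h1 3
  obtain ⟨p6, q6⟩ := tpow h0 h1 6
  norm_num at h1 q1 q2 q3 q6
  have apos : ∀ V : ℝ, |V| ≤ t ^ 3 / 64 → 0 < 1 + t ^ 6 + 4 * τ * t ^ 3 * V := by
    intro V hV
    have h2 : |τ * t ^ 3 * V| ≤ 1 * 1 * 1 / 8 := by
      rw [abs_mul, abs_mul, abs_of_pos p3]
      calc |τ| * t ^ 3 * |V| ≤ 1 * t ^ 3 * (t ^ 3 / 64) :=
            mul_le_mul (mul_le_mul_of_nonneg_right hτa p3.le) hV (abs_nonneg _) (by linarith only [p3])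
        _ ≤ 1 * 1 * (1 / 64) := by
            apply mul_le_mul _ (by linarith) (by linarith only [p3]) (by norm_num)
            linarith only [h1, q1, q2]
        _ ≤ 1 * 1 * 1 / 8 := by norm_num
    have h3 := abs_le.1 h2
    linarith only [p6, h3]
  have a1 := apos Y₁ hY1
  have a2 := apos Y₂ hY2
  have f1 := mul_le_mul_of_nonneg_right r1 a2.le
  have f2 := mul_le_mul_of_nonneg_right r2 a1.le
  have f3 : c * (Y₁ * (1 + t ^ 6 + 4 * τ * t ^ 3 * Y₂) + Y₂ * (1 + t ^ 6 + 4 * τ * t ^ 3 * Y₁)) ≤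
      0 := by linarith
  have f4 : Y₁ * (1 + t ^ 6 + 4 * τ * t ^ 3 * Y₂) + Y₂ * (1 + t ^ 6 + 4 * τ * t ^ 3 * Y₁) ≤ 0 := by
    by_contra hcon
    rw [not_le] at hcon
    have := mul_pos hc0 hcon
    linarith only [f1, f2, this]
  linarith only [f4]

/-- E5 -/
theorem e5 (hS1 : S1Stmt) : E5Stmt := by
  intro t Y₁ Y₂ g a σ h0 h1 hY1 hY2 hN hS hP1 hP2
  obtain ⟨n1, n2, n3, n4⟩ := near3 hN
  obtain ⟨p1, q1⟩ := tpow h0 h1 1
  obtain ⟨p2, q2⟩ := tpow h0 h1 2
  obtain ⟨p3, q3⟩ := tpow h0 h1 3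
  obtain ⟨p4, q4⟩ := tpow h0 h1 4
  obtain ⟨p5, q5⟩ := tpow h0 h1 5
  obtain ⟨p6, q6⟩ := tpow h0 h1 6
  obtain ⟨p7, q7⟩ := tpow h0 h1 7
  have h1' := h1
  norm_num at h1 q1 q2 q3 q4 q5 q6 q7
  have hun := unit_sq g
  obtain ⟨c, hc⟩ : ∃ c, c = -g.u.im := ⟨_, rfl⟩
  obtain ⟨s, hs⟩ : ∃ s, s = g.u.re := ⟨_, rfl⟩
  have hc' : g.u.im = -c := by linarith only [hc]
  rw [← hs] at n3 hun
  rw [hc'] at n4 hun
  obtain ⟨vx, hvx⟩ : ∃ v, v = g.v.re - a.re - 1 / 2 := ⟨_, rfl⟩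
  obtain ⟨vy, hvy⟩ : ∃ v, v = g.v.im - a.im - 1 / 2 := ⟨_, rfl⟩
  rw [← hvx] at n1
  rw [← hvy] at n2
  have m1 := abs_le.1 n1
  have m2 := abs_le.1 n2
  have m3 := abs_le.1 n3
  have m4 := abs_le.1 n4
  have hc0 : 0 < c := by linarith only [m4]
  have hc1 : c ≤ 1 := by nlinarith only [hun, sq_nonneg s]
  -- the sign
  obtain ⟨τ, hτ⟩ : ∃ τ, τ = sgB σ := ⟨_, rfl⟩
  have hττ : τ = 1 ∨ τ = -1 := by
    rcases sgB_cases σ with ⟨h, -, -⟩ | ⟨h, -, -⟩
    · left; rw [hτ, h]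
    · right; rw [hτ, h]
  have hτ2 : τ * τ = 1 := by rcases hττ with h | h <;> rw [h] <;> norm_num
  have hτa : |τ| ≤ 1 := by rcases hττ with h | h <;> rw [h] <;> simp
  rw [tipH_eq, eL_eq, ← hτ] at hS
  rw [eL_eq] at hP1 hP2
  rw [← hτ] at hP1 hP2 ⊢
  -- coordinates
  have cr : ∀ X Y : ℝ, g.u.re * ((⟨X, Y⟩ : ℂ).re - g.v.re) + g.u.im * ((⟨X, Y⟩ : ℂ).im - g.v.im)
      = -(c * (Y - g.v.im) - s * (X - g.v.re)) := by
    intro X Y
    rw [← hs, hc']
    ring
  have ci : ∀ X Y : ℝ, g.u.re * ((⟨X, Y⟩ : ℂ).im - g.v.im) - g.u.im * ((⟨X, Y⟩ : ℂ).re - g.v.re)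
      = c * (X - g.v.re) + s * (Y - g.v.im) := by
    intro X Y
    rw [← hs, hc']
    ring
  -- the tip of the spike
  obtain ⟨X, hX⟩ : ∃ X, X = a.re + 1 - (1 / 2 + τ / 16) := ⟨_, rfl⟩
  obtain ⟨Y, hY⟩ : ∃ Y, Y = a.im + (t ^ 3 - τ * t ^ 3 / 4) := ⟨_, rfl⟩
  obtain ⟨e, he⟩ : ∃ e, e = c * (X - g.v.re) + s * (Y - g.v.im) + τ / 16 := ⟨_, rfl⟩
  obtain ⟨Z, hZ⟩ : ∃ Z, Z = c * (Y - g.v.im) - s * (X - g.v.re) := ⟨_, rfl⟩
  obtain ⟨η, hη⟩ : ∃ η, η = t ^ 3 / 2 - τ * t ^ 3 / 4 := ⟨_, rfl⟩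
  have hη1 : t ^ 3 / 4 ≤ η ∧ η ≤ 3 * t ^ 3 / 4 := by
    rcases hττ with h | h <;> rw [hη, h] <;> constructor <;> linarith only [p7, q3, q4, q5, q6]
  have hYb : 0 ≤ Y - a.im ∧ Y - a.im ≤ 2 * t ^ 3 := by
    rcases hττ with h | h <;> rw [hY, h] <;> constructor <;> linarith only [p7, q3, q4, q5, q6]
  have hXv : |X - g.v.re| ≤ 1 / 15 := by
    rw [abs_le]
    rcases hττ with h | h <;> rw [hX, h] <;> constructor <;> linarith only [hvx, m1]
  have hYv : |Y - g.v.im + 1 / 2| ≤ 1 / 1000 := by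
    rw [abs_le]
    constructor <;> linarith only [hvy, m2, hY, hη, hη1, h1', q1, q2]
  have hYv2 : |Y - g.v.im| ≤ 3 / 4 := by
    rw [abs_le] at hYv ⊢
    constructor <;> linarith only [hvy, m2, hY, hη, hη1, h1', q1, q2]
  have hcs : |1 - c| ≤ 1 / 1024 := by
    rw [abs_le]
    constructor <;> linarith only [hc1, m4]
  have hsX : |s * (X - g.v.re)| ≤ 1 / 1024 * (1 / 15) := by
    rw [abs_mul]
    exact mul_le_mul n3 hXv (abs_nonneg _) (by norm_num)
  have hsY : |s * (Y - g.v.im)| ≤ 1 / 1024 * (3 / 4) := by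
    rw [abs_mul]
    exact mul_le_mul n3 hYv2 (abs_nonneg _) (by norm_num)
  have hcX : |(1 - c) * (X - g.v.re)| ≤ 1 / 1024 * (1 / 15) := by
    rw [abs_mul]
    exact mul_le_mul hcs hXv (abs_nonneg _) (by norm_num)
  have hcY : |(1 - c) * (Y - g.v.im)| ≤ 1 / 1024 * (3 / 4) := by
    rw [abs_mul]
    exact mul_le_mul hcs hYv2 (abs_nonneg _) (by norm_num)
  have k1 := abs_le.1 hsX
  have k2 := abs_le.1 hsY
  have k3 := abs_le.1 hcX
  have k4 := abs_le.1 hcY
  have k5 := abs_le.1 hYv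
  have heb : |e| ≤ 1 / 256 := by
    have : e = -((1 - c) * (X - g.v.re)) + s * (Y - g.v.im) - vx := by
      rw [he, hX, hvx]
      ring
    rw [this, abs_le]
    constructor <;> linarith only [m1, k2, k3]
  have heb' := abs_le.1 heb
  have hZb : |Z + 1 / 2| ≤ 1 / 256 := by
    have : Z + 1 / 2 = -((1 - c) * (Y - g.v.im)) - s * (X - g.v.re) + (Y - g.v.im + 1 / 2) := by
      rw [hZ]
      ring
    rw [this, abs_le]
    constructor <;> linarith only [p7, h1', q1, q2, q3, q4, q5, q6, hvy, m2, hY, hη, hη1, k1, k4]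
  have hZb' := abs_le.1 hZb
  -- the spike is in the slit
  have hZ1 : -1 / 2 < Z := by
    by_contra hcon
    rw [not_lt] at hcon
    obtain ⟨y, hy⟩ : ∃ y, y = (-1 / 2 + η / 2 - Z) / c := ⟨_, rfl⟩
    have hy0 : 0 ≤ y := by
      rw [hy]
      apply div_nonneg _ hc0.le
      linarith only [hη1, hcon, hη1.1]
    have hcy : c * y = -1 / 2 + η / 2 - Z := by
      rw [hy]
      field_simp
    have hy1 : y ≤ 1 / 64 := by
      rw [hy, div_le_iff₀ hc0]
      linarith only [p7, h1', q1, q2, q3, q4, q5, q6, hvy, m2, m4, hY, hZ, hη, hη1, k1, k4, hη1.2]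
    have hsy : |s * y| ≤ 1 / 1024 * (1 / 64) := by
      rw [abs_mul, abs_of_nonneg hy0]
      exact mul_le_mul n3 hy1 hy0 (by norm_num)
    have hsy' := abs_le.1 hsy
    refine hS (Y + y) ?_ ?_ ?_
    · rw [← hY]
      linarith only [hy0]
    · linarith only [q1, q2, hY, hη, hη1, hy1]
    · have eX : a.re + 1 - (1 / 2 + τ / 16) = X := hX.symm
      rw [eX]
      have e1 : |e + s * y| ≤ 1 / 64 := by
        rw [abs_le]
        constructor <;> linarith only [p7, h1', q1, q2, q3, q4, q5, q6, hvx, m1, hX, he, k2, k3, hsy']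
      refine slit_region hS1 h0 h1' σ g (e := e + s * y) (Z := -1 / 2 + η / 2) ?_ ?_ e1 ?_ ?_ ?_
      · rw [cr]
        have : c * (Y + y - g.v.im) - s * (X - g.v.re) = Z + c * y := by
          rw [hZ]
          ring
        rw [this, hcy]
        ring
      · rw [ci, he, ← hτ]
        ring
      · linarith only [p7, q3, q4, q5, q6, hη1.1]
      · linarith only [h1', q1, q2, hη1.2]
      · rw [← hτ, ← hη]
        have : 0 ≤ (1 - η) * |e + s * y| / (2 * t ^ 7) := by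
          apply div_nonneg _ (by linarith only [p7])
          apply mul_nonneg _ (abs_nonneg _)
          linarith only [h1', q1, q2, hη1.2]
        linarith only [p7, q3, q4, q5, q6, this, hη1.1]
  have hZ2 : -1 / 2 + η + (1 - η) * |e| / (2 * t ^ 7) ≤ Z := by
    by_contra hcon
    rw [not_le] at hcon
    refine hS Y ?_ ?_ ?_
    · rw [← hY]
    · linarith only [q1, q2, hY, hη, hη1]
    · have eX : a.re + 1 - (1 / 2 + τ / 16) = X := hX.symm
      rw [eX]
      refine slit_region hS1 h0 h1' σ g (e := e) (Z := Z) ?_ ?_ (by linarith only [heb]) hZ1 ?_ ?_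
      · rw [cr, hZ]
      · rw [ci, he, ← hτ]
        ring
      · linarith only [p7, h1', q1, q2, q3, q4, q5, q6, hvy, m2, hY, hZ, hη, hη1, k1, k4]
      · rw [← hτ, ← hη]
        exact hcon
  have hE : t ^ 3 * |e| ≤ Z + 1 / 2 - η := by
    have : t ^ 3 * |e| ≤ (1 - η) * |e| / (2 * t ^ 7) := by
      rw [le_div_iff₀ (by linarith only [p7])]
      have h3 : t ^ 3 * |e| * (2 * t ^ 7) = (2 * (t ^ 3 * t ^ 7)) * |e| := by ring
      rw [h3]
      apply mul_le_mul_of_nonneg_right _ (abs_nonneg _)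
      have h4 : t ^ 3 * t ^ 7 ≤ 1 / 4 * 1 := by
        apply mul_le_mul _ _ p7.le (by norm_num)
        · linarith only [h1', q1, q2]
        · linarith only [h1', q1, q2, q3, q4, q5, q6]
      linarith only [h1', q1, q2, h4, hη1.2]
    linarith only [hZ2, this]
  -- the ports
  rw [hη, hτ] at hE
  have hYY : ∀ V, a.im + t ^ 3 + V = Y + (sgB σ * t ^ 3 / 4 + V) := by
    intro V
    rw [hY, hτ]
    ring
  have r1 := port hS1 h0 h1' σ g hc hs (by rw [he, hτ]) hZ n3 hcs heb hZb hE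
    (x := -1 / 4) (Or.inr rfl) hY1 (by
      rw [← hYY]
      convert hP1 using 3
      rw [hX]
      ring)
  have r2 := port hS1 h0 h1' σ g hc hs (by rw [he, hτ]) hZ n3 hcs heb hZb hE
    (x := 1 / 4) (Or.inl rfl) hY2 (by
      rw [← hYY]
      convert hP2 using 3
      rw [hX])
  rw [← hτ] at r1 r2
  exact elim h0 h1' (by linarith only [m4]) hτa hY1 hY2 r1 r2

end Pool.Agent.Helper2_Pak.H67
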