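import Pool.Agent.Helper67_Pak.Common

/-!
# E7: the columns
-/

namespace Pool.Agent.Helper2_Pak.H67

open Pool.Agent.Helper2_Pack (Motion)
open Pool.Agent.Helper67_Pack (inv_re inv_im unit_sq)

/-- the tiles of the even rows are not special -/
theorem spc_even (G : Lay) (c r : ℕ) (hr : r % 2 = 0) : G.spc c r = false := by
  unfold Lay.spc
  split
  · simp [hr]
  · have h1 : r - 2 * G.n ≠ 1 := by omega
    have h3 : r - 2 * G.n ≠ 3 := by omega
    have h5 : r - 2 * G.n ≠ 5 := by omega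
    unfold Kind.sp
    split <;> simp [h1, h3, h5]

theorem ori_false {G : Lay} {c r : ℕ} (h : G.spc c r = false) :
    (G.ori c r = 0 ∧ (G.kd c).isW = false) ∨ (G.ori c r = 2 ∧ (G.kd c).isW = true) := by
  unfold Lay.ori
  rw [h]
  cases h2 : (G.kd c).isW <;> simp

theorem ori_V {G : Lay} {c r : ℕ} (h : G.spc c r = true) (h2 : (G.kd c).isW = false) :
    G.ori c r = 1 := by
  unfold Lay.ori
  rw [h, h2]
  simp

theorem ori_W {G : Lay} {c r : ℕ} (h : G.spc c r = true) (h2 : (G.kd c).isW = true) :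
    G.ori c r = 3 := by
  unfold Lay.ori
  rw [h, h2]
  simp

theorem ori_V0 {G : Lay} {c r : ℕ} (h : G.spc c r = false) (h2 : (G.kd c).isW = false) :
    G.ori c r = 0 := by
  unfold Lay.ori
  rw [h, h2]
  simp

theorem ori_W2 {G : Lay} {c r : ℕ} (h : G.spc c r = false) (h2 : (G.kd c).isW = true) :
    G.ori c r = 2 := by
  unfold Lay.ori
  rw [h, h2]
  simp

theorem near_mono {e e' : ℝ} {a : ℂ} {k : ℕ} {g : Motion} (h : NearK e a k g) (he : e ≤ e') :
    NearK e' a k g :=
  ⟨h.1, h.2.1.trans he, h.2.2.1.trans he, h.2.2.2.trans he⟩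

theorem rot_exact {g : Motion} {k : ℕ} (h : g.u = Complex.I ^ k) : rot g k = 1 := by
  unfold rot
  rw [h, ← mul_pow]
  have : Complex.I * -Complex.I = 1 := by
    rw [mul_neg, Complex.I_mul_I]
    ring
  rw [this, one_pow]

theorem tpL_exact {t : ℝ} {g : Motion} {k : ℕ} (h : g.u = Complex.I ^ k) (hk : k = 0 ∨ k = 2)
    (x : ℝ) : tpL t g k x = g.v.im + hh t := by
  unfold tpL HY
  rw [rot_exact h]
  rcases hk with rfl | rfl <;> simp

theorem btL_exact {t : ℝ} {g : Motion} {k : ℕ} (h : g.u = Complex.I ^ k) (hk : k = 0 ∨ k = 2)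
    (x : ℝ) : btL t g k x = g.v.im - hh t := by
  unfold btL HY
  rw [rot_exact h]
  rcases hk with rfl | rfl <;> simp

/-- the apexes of the bumps of the shape -/
theorem apex_mem {t : ℝ} (h0 : 0 < t) (h1 : t ≤ 1 / 2 ^ 60) {x : ℝ} (hx : |x| = 1 / 4) :
    (⟨x, hh t + t ^ 3⟩ : ℂ) ∈ shape t := by
  obtain ⟨p1, q1⟩ := tpow h0 h1 1
  obtain ⟨p2, q2⟩ := tpow h0 h1 2
  obtain ⟨p3, q3⟩ := tpow h0 h1 3
  obtain ⟨p4, q4⟩ := tpow h0 h1 4
  obtain ⟨p5, q5⟩ := tpow h0 h1 5
  obtain ⟨p6, q6⟩ := tpow h0 h1 6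
  obtain ⟨p7, q7⟩ := tpow h0 h1 7
  have h1' := h1
  norm_num at h1 q1 q2 q3 q4 q5 q6 q7
  have hhe : hh t = 1 / 2 + t ^ 2 / 2 := by unfold hh; ring
  have hx' : x = 1 / 4 ∨ x = -1 / 4 := by
    rcases abs_eq (by norm_num : (0 : ℝ) ≤ 1 / 4) |>.1 hx with h | h
    · exact Or.inl h
    · right
      linarith only [h]
  have hxa : |x| ≤ 1 / 2 := by rw [hx]; norm_num
  have hxb := abs_le.1 (le_of_eq hx)
  unfold shape
  simp only [Set.mem_ofPred_eq]
  have hy : |hh t + t ^ 3| = hh t + t ^ 3 := abs_of_pos (by linarith)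
  have hch : chamf t (hh t) (hh t + t ^ 3) = t + t ^ 3 := by
    unfold chamf
    rw [hy]
    rw [max_eq_right (by linarith only [p7, q1, q2, q3, q4, q5, q6])]
    ring
  refine ⟨?_, ?_, ?_, ?_⟩
  · have := lo_lt h0 h1' hxa
    linarith only [p7, q2, q3, q4, q5, q6, hhe, this]
  · unfold hi
    have hc0 : chamf t (1 / 2) x = 0 := chamf_zero (by linarith only [hx, h1'])
    have b0 : bump t 0 = t ^ 3 := by
      unfold bump
      rw [abs_zero, sub_zero]
      exact max_eq_right p3.le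
    rw [hc0]
    rcases hx' with h | h
    · rw [h]
      have := bump_nonneg t (1 / 4 + 1 / 4)
      rw [sub_self, b0]
      linarith only [this]
    · rw [h]
      have := bump_nonneg t (-1 / 4 - 1 / 4)
      have e : (-1 / 4 + 1 / 4 : ℝ) = 0 := by norm_num
      rw [e, b0]
      linarith only [this]
  · unfold lf
    rw [hch, pit_zero (e := hh t + t ^ 3 + 1 / 4) (by linarith only [p7, q3, q4, q5, q6]) (by linarith only [p7, q3, q4, q5, q6])
      (by rw [le_abs]; left; linarith only [p7, q2, q3, q4, q5, q6, hhe]),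
      pit_zero (e := hh t + t ^ 3 - 1 / 4) (by linarith only [p7, q3, q4, q5, q6]) (by linarith only [p7, q3, q4, q5, q6])
      (by rw [le_abs]; left; linarith only [p7, q2, q3, q4, q5, q6, hhe]),
      slit_zero (e := hh t + t ^ 3 + 1 / 16) h0 (by linarith only [h1', q1, q2]) (by rw [le_abs]; left; linarith),
      slit_zero (e := hh t + t ^ 3 - 1 / 16) h0 (by linarith only [h1', q1, q2]) (by rw [le_abs]; left; linarith)]
    linarith only [h1', q1, q2, hxb]
  · unfold rt
    rw [hch, pit_zero (e := hh t + t ^ 3 + 5 / 16) (by linarith only [p7, q3, q4, q5, q6]) (by linarith only [p7, q3, q4, q5, q6])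
      (by rw [le_abs]; left; linarith only [p7, q2, q3, q4, q5, q6, hhe]),
      pit_zero (e := hh t + t ^ 3 + 3 / 16) (by linarith only [p7, q3, q4, q5, q6]) (by linarith only [p7, q3, q4, q5, q6])
      (by rw [le_abs]; left; linarith only [p7, q2, q3, q4, q5, q6, hhe]),
      pit_zero (e := hh t + t ^ 3 - 3 / 16) (by linarith only [p7, q3, q4, q5, q6]) (by linarith only [p7, q3, q4, q5, q6])
      (by rw [le_abs]; left; linarith only [p7, q2, q3, q4, q5, q6, hhe]),
      pit_zero (e := hh t + t ^ 3 - 5 / 16) (by linarith only [p7, q3, q4, q5, q6]) (by linarith only [p7, q3, q4, q5, q6])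
      (by rw [le_abs]; left; linarith only [p7, q2, q3, q4, q5, q6, hhe])]
    linarith only [h1', q1, q2, hxb]

/-- the apexes of the bumps of an exact tile in the orientation `0` -/
theorem apex0 {t : ℝ} (h0 : 0 < t) (h1 : t ≤ 1 / 2 ^ 60) {g : Motion} (hu : g.u = 1) {X : ℝ}
    (hv : g.v.re = X + 1 / 2) {x Y : ℝ} (hx : x = X + 1 / 4 ∨ x = X + 3 / 4)
    (hY : Y = g.v.im + hh t + t ^ 3) : (⟨x, Y⟩ : ℂ) ∈ tile t g := by
  unfold tile
  rw [g.mem_image, hu, map_one, one_mul]
  have : (⟨x, Y⟩ : ℂ) - g.v = ⟨x - X - 1 / 2, hh t + t ^ 3⟩ := by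
    apply Complex.ext
    · simp [hv]
      ring
    · simp [hY]
      ring
  rw [this]
  apply apex_mem h0 h1
  rcases hx with h | h <;> rw [h]
  · have : X + 1 / 4 - X - 1 / 2 = (-(1 / 4) : ℝ) := by ring
    rw [this, abs_neg, abs_of_pos (by norm_num)]
  · have : X + 3 / 4 - X - 1 / 2 = (1 / 4 : ℝ) := by ring
    rw [this, abs_of_pos (by norm_num)]

/-- the apexes of the bumps of an exact tile in the orientation `2` -/
theorem apex2 {t : ℝ} (h0 : 0 < t) (h1 : t ≤ 1 / 2 ^ 60) {g : Motion} (hu : g.u = -1) {X : ℝ}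
    (hv : g.v.re = X + 1 / 2) {x Y : ℝ} (hx : x = X + 1 / 4 ∨ x = X + 3 / 4)
    (hY : Y = g.v.im - hh t - t ^ 3) : (⟨x, Y⟩ : ℂ) ∈ tile t g := by
  unfold tile
  rw [g.mem_image, hu, map_neg, map_one]
  have : -1 * ((⟨x, Y⟩ : ℂ) - g.v) = ⟨X + 1 / 2 - x, hh t + t ^ 3⟩ := by
    apply Complex.ext
    · simp [hv]
    · simp [hY]
      ring
  rw [this]
  apply apex_mem h0 h1
  rcases hx with h | h <;> rw [h]
  · have : X + 1 / 2 - (X + 1 / 4) = (1 / 4 : ℝ) := by ring
    rw [this, abs_of_pos (by norm_num)]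
  · have : X + 1 / 2 - (X + 3 / 4) = (-(1 / 4) : ℝ) := by ring
    rw [this, abs_neg, abs_of_pos (by norm_num)]

/-- the line of the top side is below the ceiling -/
theorem tpL_le_ce (hF2 : F2Stmt) (hG3 : G3Stmt) {t : ℝ} {G : Lay} (hOK : G.OK) (hsm : Small t G)
    (h1 : t ≤ 1 / 2 ^ 60) {c r : ℕ} (hc : c < G.M) {k : ℕ} {g : Motion}
    (hN : NearK (1 / 1024) ⟨c, r⟩ k g) (hsub : tile t g ⊆ G.cont t)
    (hL : (G.kd c).isL = false) (hR : (G.kd c).isR = false) {l x : ℝ} (hl : |l| = 3 / 8)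
    (hx : x = c + 1 / 2 + l) : tpL t g k x ≤ G.ce t c := by
  by_contra hcon
  rw [not_le] at hcon
  obtain ⟨y, hy⟩ : ∃ y, y = max ((G.ce t c + tpL t g k x) / 2) (tpL t g k x - 1 / 8) := ⟨_, rfl⟩
  have hy1 : G.ce t c < y := by
    rw [hy]
    exact lt_of_lt_of_le (by linarith only [hcon]) (le_max_left _ _)
  have hy2 : tpL t g k x - 1 / 4 < y := by
    rw [hy]
    exact lt_of_lt_of_le (by linarith) (le_max_right _ _)
  have hy3 : y < tpL t g k x := by
    rw [hy]
    apply max_lt <;> linarith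
  have h3 := hF2 t g ⟨c, r⟩ k l x y hsm.pos h1 (near_mono hN (by norm_num))
    (Or.inr (Or.inr (Or.inl hl))) (by
      rw [hx]
      simp) hy2 hy3
  have h4 := hG3 t G c l hOK hsm hc _ (hsub (interior_subset h3)) (by
    show |x - (c + 1 / 2 + l)| ≤ 1 / 64
    rw [hx]
    simp)
  have h5 := h4.2.1 hL hR (Or.inr (Or.inr hl))
  simp only at h5
  linarith

theorem pq_nonneg {t : ℝ} (h0 : 0 < t) (b : Bool) : 0 ≤ pq t b := by
  unfold pq
  split
  · positivity
  · exact le_rfl

/-- E7 -/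
theorem e7 (hE1 : E1Stmt) (hE2 : E2Stmt) (hE3 : E3Stmt) (hF2 : F2Stmt) (hF6 : F6Stmt)
    (hF7 : F7Stmt) (hG3 : G3Stmt) (hG4 : G4Stmt) (hR2 : R2Stmt) (hG1 : G1Stmt) : E7Stmt := by
  intro t G g L kL hOK hsm hA c hc
  have h0 := hsm.pos
  obtain ⟨g1, -, -, -, g5, -⟩ := hG1 t G hOK hsm
  have h1 : t ≤ 1 / 2 ^ 60 := g1.trans (by norm_num)
  obtain ⟨p1, q1⟩ := tpow h0 h1 1
  obtain ⟨p2, q2⟩ := tpow h0 h1 2
  obtain ⟨p3, q3⟩ := tpow h0 h1 3
  have h1' := h1
  norm_num at h1 q1 q2 q3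
  have hhe : hh t = 1 / 2 + t ^ 2 / 2 := by unfold hh; ring
  obtain ⟨r1, r2, r3, r4⟩ := hR2 t G g G.ori L kL hOK hsm hA c hc
  have htop : G.N ≤ G.top c := by unfold Lay.top; omega
  have hNodd : G.N = 2 * G.n + 1 := rfl
  have hpres : ∀ r, r < G.top c → G.pres c r = true := by
    intro r hr
    unfold Lay.pres
    simp [hc, hr]
  have hpres' : ∀ r, G.pres c r = true → r < G.top c := by
    intro r hr
    unfold Lay.pres at hr
    simp at hr
    exact hr.2
  -- even rows
  have ev : ∀ r, r < G.top c → r % 2 = 0 → (g c r).u = Complex.I ^ (G.ori c r) ∧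
      (g c r).v.re = c + 1 / 2 ∧ (G.ori c r = 0 ∨ G.ori c r = 2) := by
    intro r hr he
    obtain ⟨a1, a2⟩ := hE1 t G g G.ori L kL hOK hsm hA c r (hpres r hr) he
    refine ⟨a1, a2, ?_⟩
    rcases ori_false (spc_even G c r he) with ⟨h, -⟩ | ⟨h, -⟩
    · exact Or.inl h
    · exact Or.inr h
  have evT : ∀ r, r < G.top c → r % 2 = 0 → ∀ x, tpL t (g c r) (G.ori c r) x =
      (g c r).v.im + hh t := fun r hr he x =>
    tpL_exact (ev r hr he).1 (ev r hr he).2.2 x
  have evB : ∀ r, r < G.top c → r % 2 = 0 → ∀ x, btL t (g c r) (G.ori c r) x =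
      (g c r).v.im - hh t := fun r hr he x =>
    btL_exact (ev r hr he).1 (ev r hr he).2.2 x
  have hvim : ∀ r, r < G.top c → |(g c r).v.im - r - 1 / 2| ≤ 1 / 1024 := by
    intro r hr
    have h := (hA.near c r (hpres r hr)).2.2.1
    simpa using h
  have hnear : ∀ r, r < G.top c → NearK (1 / 512) ⟨c, r⟩ (G.ori c r) (g c r) := fun r hr =>
    near_mono (hA.near c r (hpres r hr)) (by norm_num)
  have hI : ∀ r : ℕ, (⟨c, r⟩ : ℂ) + Complex.I = ⟨c, ((r + 1 : ℕ) : ℝ)⟩ := by
    intro r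
    apply Complex.ext <;> simp
  have hdisj : ∀ r s, r < G.top c → s < G.top c → r ≠ s →
      Disjoint (interior (tile t (g c r))) (interior (tile t (g c s))) := fun r s hr hs hne =>
    hA.disj c r c s (hpres r hr) (hpres s hs) (Or.inr hne)
  -- vertical neighbours
  have f7 : ∀ r, r + 1 < G.top c → ∀ l : ℝ, |l| = 3 / 8 → ∀ x, x = c + 1 / 2 + l →
      tpL t (g c r) (G.ori c r) x ≤ btL t (g c (r + 1)) (G.ori c (r + 1)) x := by
    intro r hr l hl x hx
    refine (hF7 t (g c r) (g c (r + 1)) ⟨c, r⟩ (G.ori c r) (G.ori c (r + 1)) l x h0 h1'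
      (hnear r (by omega)) ?_ ?_ (hdisj r (r + 1) (by omega) hr (by omega))).1
      (Or.inr (Or.inr hl))
    · rw [hI]
      exact hnear (r + 1) hr
    · rw [hx]
      simp
  refine ⟨?_, ?_, ?_⟩
  · have := evB 0 (by omega) rfl (chX G c)
    rw [this] at r2
    have := pq_nonneg h0 (!(G.kd c).isW && decide (2 ≤ G.ori c 0))
    linarith only [r2, this]
  · intro hk
    have e : G.top c = G.N := by unfold Lay.top; omega
    rw [e] at r3
    have := evT (G.N - 1) (by omega) (by omega) (chX G c)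
    rw [this] at r3
    have := pq_nonneg h0 ((G.kd c).isW && decide (G.ori c (G.N - 1) ≤ 1))
    linarith only [r3, this]
  intro r hr hrt
  have hr1 : r - 1 + 1 = r := by omega
  have hrm : r - 1 < G.top c := by omega
  have hTm := evT (r - 1) hrm (by omega)
  have hvm := abs_le.1 (hvim (r - 1) hrm)
  have hcast : ((r - 1 : ℕ) : ℝ) = (r : ℝ) - 1 := by
    rw [Nat.cast_sub (by omega)]
    simp
  rw [hcast] at hvm
  -- the row at the ceiling
  have hceil : r + 1 = G.top c → (G.kd c).isL = false ∧ (G.kd c).isR = false ∧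
      |G.ce t c - (r + 1)| ≤ t / 64 := by
    intro ht
    have hh0 : (G.kd c).h ≠ 0 := by
      intro h
      have e : G.top c = G.N := by unfold Lay.top; omega
      omega
    refine ⟨?_, ?_, ?_⟩
    · cases hk : G.kd c <;> simp [Kind.isL] <;> rw [hk] at hh0 <;> simp [Kind.h] at hh0
    · cases hk : G.kd c <;> simp [Kind.isR] <;> rw [hk] at hh0 <;> simp [Kind.h] at hh0
    · have := (g5 c hc).2
      rw [← ht] at this
      push_cast at this
      exact this
  refine ⟨?_, ?_, ?_⟩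
  · -- a tile which is not special
    intro hs
    have hHY : HY t (G.ori c r) = hh t := by
      unfold HY
      rcases ori_false hs with ⟨h, -⟩ | ⟨h, -⟩ <;> rw [h] <;> simp
    have hnh : G.nh t c r = 1 + t ^ 2 := by
      unfold Lay.nh
      rw [hs]
      simp
    have u1 := r1 (r - 1) (by omega)
    rw [hr1] at u1
    rw [hTm] at u1
    have u2 := r4 r hrt
    rw [hHY] at u2
    have u3 := pq_nonneg h0 (penV (G.ori c (r - 1)) (G.ori c r))
    refine ⟨?_, ?_⟩
    · intro hlt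
      have u4 := r1 r hlt
      rw [evB (r + 1) hlt (by omega)] at u4
      have u5 := pq_nonneg h0 (penV (G.ori c r) (G.ori c (r + 1)))
      rw [hnh]
      linarith only [hhe, u1, u2, u3, u4, u5]
    · intro ht
      rw [← ht, Nat.add_sub_cancel] at r3
      have u5 := pq_nonneg h0 ((G.kd c).isW && decide (G.ori c r ≤ 1))
      rw [hnh]
      linarith only [hhe, r3, u1, u2, u3, u5]
  · -- an adder
    intro hs hW
    have ho := ori_V hs hW
    have ho0 := ori_V0 (spc_even G c (r - 1) (by omega)) hW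
    have hnear1 : NearK (1 / 1024) ⟨c, r⟩ 1 (g c r) := ho ▸ hA.near c r (hpres r hrt)
    have hnh : G.nh t c r = 1 + t ^ 4 + t ^ 4 * (G.D t c r + t ^ 2 / 2) := by
      unfold Lay.nh Lay.sg
      rw [hs, hW]
      simp
    have hxl : xlD t G g c r = lfL t (g c r) 1 (r + 1 / 2) - c - G.D t c r := by
      unfold xlD
      rw [ho]
    obtain ⟨b1, b2, -⟩ := ev (r - 1) hrm (by omega)
    have bu : (g c (r - 1)).u = 1 := by
      rw [b1, ho0, pow_zero]
    have ap : ∀ x, (x = (c : ℝ) + 1 / 4 ∨ x = c + 3 / 4) →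
        (⟨x, (g c (r - 1)).v.im + hh t + t ^ 3⟩ : ℂ) ∉ interior (tile t (g c r)) := by
      intro x hx
      apply hF6 t _ _ h0 h1' (hdisj (r - 1) r hrm hrt (by omega))
      exact apex0 h0 h1' bu b2 hx rfl
    have fin : ∀ Y₂ : ℝ, (∀ l : ℝ, |l| = 3 / 8 → ∀ x, x = c + 1 / 2 + l →
        tpL t (g c r) 1 x ≤ Y₂) →
        (g c (r - 1)).v.im + hh t + G.nh t c r + t ^ 4 * xlD t G g c r ≤ Y₂ := by
      intro Y₂ hY
      have := hE2 t (g c r) ⟨c, r⟩ ((g c (r - 1)).v.im + hh t) Y₂ (r + 1 / 2) h0 h1' hnear1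
        (by
          show |(g c (r - 1)).v.im + hh t - r| ≤ 1 / 512
          rw [abs_le]
          constructor <;> linarith only [p3, q2, hhe, hvm, g1, q1])
        (by
          show |(r : ℝ) + 1 / 2 - (r + 1 / 2)| ≤ 1 / 512
          simp)
        (ap _ (Or.inl rfl)) (ap _ (Or.inr rfl))
        (hY (-(3 / 8)) (by rw [abs_neg, abs_of_pos (by norm_num)]) _ (by
          show (c : ℝ) + 1 / 8 = c + 1 / 2 + -(3 / 8)
          ring))
        (hY (3 / 8) (by rw [abs_of_pos (by norm_num)]) _ (by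
          show (c : ℝ) + 7 / 8 = c + 1 / 2 + 3 / 8
          ring))
      simp only at this
      rw [hnh, hxl]
      rw [hhe] at this ⊢
      linarith only [this]
    refine ⟨?_, ?_⟩
    · intro hlt
      apply fin
      intro l hl x hx
      have := f7 r hlt l hl x hx
      rw [evB (r + 1) hlt (by omega), ho] at this
      exact this
    · intro ht
      obtain ⟨c1, c2, -⟩ := hceil ht
      apply fin
      intro l hl x hx
      exact tpL_le_ce hF2 hG3 hOK hsm h1' hc hnear1 (hA.sub c r (hpres r hrt)) c1 c2 hl hx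
  · -- a subtractor
    intro hs hW
    have ho := ori_W hs hW
    have hnear3 : NearK (1 / 1024) ⟨c, r⟩ 3 (g c r) := ho ▸ hA.near c r (hpres r hrt)
    have hnh : G.nh t c r = 1 + t ^ 4 - t ^ 4 * (G.D t c r + t ^ 2 / 2) := by
      unfold Lay.nh Lay.sg
      rw [hs, hW]
      simp
      ring
    have hxr : xrD t G g c r = rtL t (g c r) 3 (r + 1 / 2) - c - G.D t c r - 2 * hh t := by
      unfold xrD HX
      rw [ho]
      simp
    have fin : ∀ Y₂ : ℝ, |Y₂ - (r + 1)| ≤ 1 / 512 →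
        (∀ x, (x = (c : ℝ) + 1 / 4 ∨ x = c + 3 / 4) →
          (⟨x, Y₂ - t ^ 3⟩ : ℂ) ∉ interior (tile t (g c r))) →
        (g c (r - 1)).v.im + hh t + G.nh t c r - t ^ 4 * xrD t G g c r ≤ Y₂ := by
      intro Y₂ hY hap
      have f8 : ∀ l : ℝ, |l| = 3 / 8 → ∀ x, x = c + 1 / 2 + l →
          (g c (r - 1)).v.im + hh t ≤ btL t (g c r) 3 x := by
        intro l hl x hx
        have := f7 (r - 1) (by omega) l hl x hx
        rw [hTm, hr1, ho] at this
        exact this
      have := hE3 t (g c r) ⟨c, r⟩ ((g c (r - 1)).v.im + hh t) Y₂ (r + 1 / 2) h0 h1' hnear3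
        hY (by
          show |(r : ℝ) + 1 / 2 - (r + 1 / 2)| ≤ 1 / 512
          simp)
        (hap _ (Or.inl rfl)) (hap _ (Or.inr rfl))
        (f8 (-(3 / 8)) (by rw [abs_neg, abs_of_pos (by norm_num)]) _ (by
          show (c : ℝ) + 1 / 8 = c + 1 / 2 + -(3 / 8)
          ring))
        (f8 (3 / 8) (by rw [abs_of_pos (by norm_num)]) _ (by
          show (c : ℝ) + 7 / 8 = c + 1 / 2 + 3 / 8
          ring))
      simp only at this
      rw [hnh, hxr]
      rw [hhe] at this ⊢
      linarith only [this]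
    refine ⟨?_, ?_⟩
    · intro hlt
      have ho2 := ori_W2 (spc_even G c (r + 1) (by omega)) hW
      obtain ⟨b1, b2, -⟩ := ev (r + 1) hlt (by omega)
      have bu : (g c (r + 1)).u = -1 := by
        rw [b1, ho2, Complex.I_sq]
      have hvp := abs_le.1 (hvim (r + 1) hlt)
      push_cast at hvp
      apply fin
      · rw [abs_le]
        constructor <;> linarith only [g1, q1, hhe, hvp, p3, q2]
      · intro x hx
        apply hF6 t _ _ h0 h1' (hdisj (r + 1) r hlt hrt (by omega))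
        exact apex2 h0 h1' bu b2 hx rfl
    · intro ht
      obtain ⟨c1, c2, c3⟩ := hceil ht
      have c3' := abs_le.1 c3
      have hG := (hG4 t G c hOK hsm hc).2.1 hW
      apply fin
      · rw [abs_le]
        constructor <;> linarith only [g1, c3']
      · intro x hx hin
        have hin' := interior_mono (hA.sub c r (hpres r hrt)) hin
        rcases hx with h | h
        · rw [h] at hin'
          exact hG.1 hin'
        · rw [h] at hin'
          exact hG.2 hin'

end Pool.Agent.Helper2_Pak.H67
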