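import Pool.Agent.Helper2_Pak.Stmts
import Pool.Agent.Helper67_Pack.Common

/-!
# Tools for the exact inequalities (one shape)
-/

namespace Pool.Agent.Helper2_Pak.H67

open Pool.Agent.Helper2_Pack (Motion)
open Pool.Agent.Helper67_Pack (inv_re inv_im unit_sq)

/-- powers of a small number -/
theorem tpow {t : ℝ} (h0 : 0 < t) (h1 : t ≤ 1 / 2 ^ 60) (n : ℕ) : 0 < t ^ n ∧
    t ^ (n + 1) ≤ t ^ n / 2 ^ 60 := by
  have hp : 0 < t ^ n := by positivity
  refine ⟨hp, ?_⟩
  rw [pow_succ]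
  calc t ^ n * t ≤ t ^ n * (1 / 2 ^ 60) := mul_le_mul_of_nonneg_left h1 hp.le
    _ = t ^ n / 2 ^ 60 := by ring

theorem pit_zero {a b e : ℝ} (h1 : 0 ≤ a + b / 128) (h2 : 0 ≤ a - b / 128) (he : 1 / 64 ≤ |e|) :
    pit a b e = 0 := by
  unfold pit
  apply le_antisymm _ (le_max_left _ _)
  refine max_le le_rfl ?_
  rcases le_abs.1 he with h | h
  · refine (min_le_right _ _).trans ((min_le_left _ _).trans ?_)
    exact mul_nonpos_of_nonneg_of_nonpos h1 (by linarith)
  · refine (min_le_right _ _).trans ((min_le_right _ _).trans ?_)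
    exact mul_nonpos_of_nonneg_of_nonpos h2 (by linarith)

theorem pit_le {a b e : ℝ} (h : 0 ≤ a + b * e) : pit a b e ≤ a + b * e :=
  max_le h (min_le_left _ _)

theorem pit_nonneg (a b e : ℝ) : 0 ≤ pit a b e := le_max_left _ _

theorem slit_zero {t d e : ℝ} (h0 : 0 < t) (hd : 0 ≤ d) (he : 2 * t ^ 7 ≤ |e|) :
    slit t d e = 0 := by
  unfold slit
  apply le_antisymm _ (le_max_left _ _)
  refine max_le le_rfl ?_
  have h : 1 ≤ |e| / (2 * t ^ 7) := by
    rw [le_div_iff₀ (by positivity)]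
    linarith
  exact mul_nonpos_of_nonneg_of_nonpos hd (by linarith)

theorem chamf_zero {t w e : ℝ} (h : |e| ≤ w - t) : chamf t w e = 0 := by
  unfold chamf
  exact max_eq_left (by linarith)

theorem chamf_le {t w e : ℝ} (h0 : 0 ≤ t) (h : |e| ≤ w) : chamf t w e ≤ t := by
  unfold chamf
  exact max_le h0 (by linarith)

theorem chamf_nonneg (t w e : ℝ) : 0 ≤ chamf t w e := le_max_left _ _

theorem dent_le {t e : ℝ} (h0 : 0 < t) : dent t e ≤ 2 * t ^ 3 := by
  unfold dent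
  have h3 : 0 < t ^ 3 := by positivity
  refine max_le (by positivity) ?_
  have := abs_nonneg e
  nlinarith

theorem dent_nonneg (t e : ℝ) : 0 ≤ dent t e := le_max_left _ _

theorem bump_nonneg (t e : ℝ) : 0 ≤ bump t e := le_max_left _ _

theorem bump_le {t e : ℝ} (h0 : 0 < t) : bump t e ≤ t ^ 3 := by
  unfold bump
  have h3 : 0 < t ^ 3 := by positivity
  exact max_le h3.le (by linarith [abs_nonneg e])

/-- crude bounds for the bottom and top sides -/
theorem lo_lt {t x : ℝ} (h0 : 0 < t) (h1 : t ≤ 1 / 2 ^ 60) (hx : |x| ≤ 1 / 2) :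
    lo t x < -3 / 8 := by
  unfold lo
  have a1 := dent_le (e := x + 1 / 4) h0
  have a2 := dent_le (e := x - 1 / 4) h0
  have a3 := chamf_le (t := t) h0.le hx
  obtain ⟨b1, c1⟩ := tpow h0 h1 1
  obtain ⟨b2, c2⟩ := tpow h0 h1 2
  have a4 : 1 / 2 ≤ hh t := by unfold hh; linarith
  norm_num at h1 c1 c2
  linarith

theorem lt_hi {t x : ℝ} (h0 : 0 < t) (h1 : t ≤ 1 / 2 ^ 60) (hx : |x| ≤ 1 / 2) :
    3 / 8 < hi t x := by
  unfold hi
  have a1 := bump_nonneg t (x + 1 / 4)
  have a2 := bump_nonneg t (x - 1 / 4)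
  have a3 := chamf_le (t := t) h0.le hx
  obtain ⟨b2, c2⟩ := tpow h0 h1 2
  have a4 : 1 / 2 ≤ hh t := by unfold hh; linarith
  norm_num at h1
  linarith

/-- membership in the interior of a tile -/
theorem mem_int (hS1 : S1Stmt) {t : ℝ} (h0 : 0 < t) (h1 : t ≤ 1 / 2 ^ 60) (g : Motion) {z : ℂ}
    {x y : ℝ} (hx : g.u.re * (z.re - g.v.re) + g.u.im * (z.im - g.v.im) = x)
    (hy : g.u.re * (z.im - g.v.im) - g.u.im * (z.re - g.v.re) = y)
    (h2 : lo t x < y) (h3 : y < hi t x) (h4 : lf t y < x) (h5 : x < rt t y) :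
    z ∈ interior (tile t g) := by
  unfold tile
  have e : interior (g.app '' shape t) = g.app '' interior (shape t) :=
    (g.homeo.image_interior _).symm
  rw [e, g.mem_image]
  apply (hS1 t h0 h1).1
  simp only [Set.mem_ofPred_eq]
  rw [inv_re, inv_im, hx, hy]
  exact ⟨h2, h3, h4, h5⟩

end Pool.Agent.Helper2_Pak.H67
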